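import Pool.Agent.Helper98.TA.Stmts2
import Pool.Agent.Helper98.GY.Stmts
import Pool.Agent.Helper13.GY.GDY

/-!
Row GDB of the sheet TA (MP_7a8f48_an): the theorem for the models.
-/

open MeasureTheory Filter Topology Finset

namespace Pool.Agent.Helper13.TA

open Pool.Agent.Helper16.BZ (EQ)
open Pool.Agent.Helper98.GY (StrP ST_MSP ST_THB ST_UEQ)
open Pool.Agent.Helper98.TA (ST_MLB ST_GDB)

theorem st_GDB (mlb : ST_MLB) (msp : ST_MSP) (thb : ST_THB) (ueq : ST_UEQ) : ST_GDB := by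
  intro Y _ _ _ _ ν _ S hmp hmd hue
  have heq : EQ (S : Y → Y) ν := ueq Y ν (S : Y → Y) S.continuous hue hmd.1
  have hstr : StrP (S : Y → Y) ν := msp Y ν (S : Y → Y) S.continuous hmp heq
    fun d φ c hφ hc ε hε => mlb Y ν S hmp hmd d φ c hφ hc ε hε
  exact ⟨thb Y ν S hstr hmp heq, heq⟩

end Pool.Agent.Helper13.TA
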