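import Pool.Agent.Helper98.TA.Stmts
import Pool.Agent.Helper98.TW.Basic
import Pool.Agent.Helper98.TW.Stmts

/-!
Row SCH of the sheet TA (MP_7a8f48_an): every invariant algebra has a saturated torsion extension.
-/

set_option linter.unusedSectionVars false

open MeasureTheory Filter Topology Finset
open scoped ComplexConjugate

namespace Pool.Agent.Helper13.TA

open Pool.Agent.Helper98.TW
open Pool.Agent.Helper98.TA (Ga Pw ad fr mt Sa Tr Ct Sg Ab ST_SCH)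
open Pool.Agent.Helper40.TWM (St)

variable {Ω : Type} [m0 : MeasurableSpace Ω] {μ : Measure Ω}
variable {S S' : Ω → Ω} {E E' C 𝒜 ℬ : SA Ω} {u v τ φ ψ : Ω → ℂ}

/-! ### integer powers of unimodular functions -/

theorem ne_zero_of_uf (h : UF μ u) : ∀ᵐ x ∂μ, u x ≠ 0 := by
  filter_upwards [h.2] with x hx h0
  rw [h0, norm_zero] at hx
  exact zero_ne_one hx

theorem uf_zpow (h : UF μ u) (n : ℤ) : UF μ (fun x => u x ^ n) := by
  constructor
  · rcases n with n | n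
    · simp only [Int.ofNat_eq_natCast, zpow_natCast]
      exact h.1.pow_const n
    · simp only [zpow_negSucc]
      exact (h.1.pow_const (n + 1)).inv
  · filter_upwards [h.2] with x hx
    rw [norm_zpow, hx, one_zpow]

theorem conj_zpow (h : UF μ u) (n : ℤ) : ∀ᵐ x ∂μ, conj (u x ^ n) = u x ^ (-n) := by
  filter_upwards [h.2, ne_zero_of_uf h] with x hx h0
  have h1 : conj (u x) = (u x)⁻¹ := by
    rw [Complex.inv_def, Complex.normSq_eq_norm_sq, hx]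
    simp
  rw [map_zpow₀, h1, inv_zpow, zpow_neg]

theorem am_zpow (h : UF μ u) (ha : AM μ 𝒜 u) (n : ℤ) : AM μ 𝒜 (fun x => u x ^ n) := by
  rcases n with n | n
  · simp only [Int.ofNat_eq_natCast, zpow_natCast]
    exact am_pow ha n
  · refine am_congr (am_conj (am_pow ha (n + 1))) ?_
    filter_upwards [conj_zpow h ((n + 1 : ℕ) : ℤ)] with x hx
    rw [zpow_natCast] at hx
    rw [hx, zpow_negSucc, zpow_neg, zpow_natCast]

theorem inc_zpow (hR : MeasurePreserving S μ μ) (h : UF μ u) (ha : Inc μ 𝒜 S u) (n : ℤ) :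
    Inc μ 𝒜 S (fun x => u x ^ n) := by
  rcases n with n | n
  · simp only [Int.ofNat_eq_natCast, zpow_natCast]
    exact ha.pow n
  · refine (ha.pow (n + 1)).conj.congr hR ?_
    filter_upwards [conj_zpow h ((n + 1 : ℕ) : ℤ)] with x hx
    rw [zpow_natCast] at hx
    rw [hx, zpow_negSucc, zpow_neg, zpow_natCast]

/-! ### the group of the powers -/

theorem grp_pw (hu : UF μ u) : Grp μ (Pw μ E u) where
  uf := fun φ h => h.1
  one := by
    refine ⟨uf_one, 0, ?_⟩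
    simpa using am_const (μ := μ) (𝒜 := E) 1
  mul := by
    rintro φ ⟨h1, n, h2⟩ ψ ⟨h3, m, h4⟩
    refine ⟨h1.mul h3, n + m, ?_⟩
    refine am_congr (am_mul h2 h4) ?_
    filter_upwards [ne_zero_of_uf hu] with x hx
    rw [zpow_add₀ hx, map_mul]
    ring
  inv := by
    rintro φ ⟨h1, n, h2⟩
    refine ⟨h1.conj, -n, ?_⟩
    refine am_congr (am_conj h2) ?_
    filter_upwards [conj_zpow hu n, conj_zpow hu (-n)] with x hx hx'
    rw [map_mul, Complex.conj_conj, hx', neg_neg]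

theorem inc_pw (hS : MeasurePreserving S μ μ) (hE : IA μ E S S') (hu : UF μ u)
    (hi : Inc μ E S u) : ∀ φ ∈ Pw μ E u, Inc μ E S φ := by
  rintro φ ⟨h1, n, h2⟩
  have h3 := inc_zpow hS hu hi n
  refine (Inc.mul (inc_of_am hE h2) h3).congr hS ?_
  filter_upwards [(uf_zpow hu n).conj_mul] with x hx
  rw [mul_assoc, hx, mul_one]

theorem ia_ad (iaj : ST_IAJ) [IsProbabilityMeasure μ] (hS : Sys μ S S') (hE : IA μ E S S')
    (hu : UF μ u) (hi : Inc μ E S u) : IA μ (ad μ E u) S S' :=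
  (iaj Ω μ S S' hS).2 E _ hE (grp_pw hu) (inc_pw hS.mp hE hu hi)

theorem mem_pw (hu : UF μ u) : u ∈ Pw μ E u := by
  refine ⟨hu, 1, ?_⟩
  refine am_congr (am_const (1 : ℂ)) ?_
  filter_upwards [hu.mul_conj] with x hx
  rw [zpow_one, hx]

theorem zpow_cm (z : ℂ) (M : ℕ) (n : ℤ) : (z ^ M) ^ n = (z ^ n) ^ M := by
  rw [← zpow_natCast z M, ← zpow_mul, mul_comm, zpow_mul, zpow_natCast]

theorem zpow_mn (z : ℂ) (M : ℕ) (n : ℤ) : (z ^ n) ^ M = z ^ (n * M) := by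
  rw [zpow_mul, zpow_natCast]

/-- the same with a larger algebra: powers of `u` modulo `E` have torsion in `E` -/
theorem pow_pw (hu : UF μ u) {M : ℕ} (hM : AM μ E (fun x => u x ^ M)) (hφ : φ ∈ Pw μ E u) :
    AM μ E (fun x => φ x ^ M) := by
  obtain ⟨h1, n, h2⟩ := hφ
  have h3 : AM μ E (fun x => (u x ^ M) ^ n) := am_zpow (hu.pow M) hM n
  refine am_congr (am_mul (am_pow h2 M) h3) ?_
  filter_upwards [(uf_zpow hu n).conj_mul] with x hx
  rw [mul_pow, zpow_cm, mul_assoc, ← mul_pow, hx, one_pow, mul_one]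

/-! ### the subgroups of the exponents -/

theorem exists_gen {P : ℤ → Prop} (h0 : P 0) (ha : ∀ a b, P a → P b → P (a + b))
    (hn : ∀ a, P a → P (-a)) : ∃ n : ℕ, ∀ a : ℤ, P a ↔ (n : ℤ) ∣ a := by
  let H : AddSubgroup ℤ :=
    { carrier := {a | P a}
      zero_mem' := h0
      add_mem' := fun {a b} h h' => ha a b h h'
      neg_mem' := fun {a} h => hn a h }
  obtain ⟨g, hg⟩ := Int.subgroup_cyclic H
  refine ⟨g.natAbs, fun a => ?_⟩
  have h1 : P a ↔ a ∈ H := Iff.rfl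
  rw [h1, hg, AddSubgroup.mem_closure_singleton, Int.natAbs_dvd]
  constructor
  · rintro ⟨k, rfl⟩
    simp
  · rintro ⟨k, rfl⟩
    exact ⟨k, by simp [mul_comm]⟩

/-- exponents `a` for which `u ^ a` is measurable -/
theorem exists_nk (μ : Measure Ω) (𝒜 : SA Ω) (hu : UF μ u) :
    ∃ n : ℕ, ∀ a : ℤ, AM μ 𝒜 (fun x => u x ^ a) ↔ (n : ℤ) ∣ a := by
  refine exists_gen ?_ (fun a b h h' => ?_) fun a h => ?_
  · simpa using am_const (μ := μ) (𝒜 := 𝒜) 1
  · refine am_congr (am_mul h h') ?_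
    filter_upwards [ne_zero_of_uf hu] with x hx
    rw [zpow_add₀ hx]
  · exact am_congr (am_conj h) (conj_zpow hu a)

open Classical in
/-- the generator of the group of the exponents -/
noncomputable def nk (μ : Measure Ω) (𝒜 : SA Ω) (u : Ω → ℂ) : ℕ :=
  if h : ∃ n : ℕ, ∀ a : ℤ, AM μ 𝒜 (fun x => u x ^ a) ↔ (n : ℤ) ∣ a then h.choose else 0

theorem nk_spec (hu : UF μ u) (a : ℤ) : AM μ 𝒜 (fun x => u x ^ a) ↔ (nk μ 𝒜 u : ℤ) ∣ a := by
  have h := exists_nk μ 𝒜 hu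
  unfold nk
  rw [dif_pos h]
  exact h.choose_spec a

/-! ### torsion extensions -/

/-- the joins of `ad` -/
theorem jo_ad (𝒜 ℬ : SA Ω) (Φ : Set (Ω → ℂ)) : jo (jo 𝒜 (sg Φ)) ℬ = jo (jo 𝒜 ℬ) (sg Φ) :=
  sup_right_comm (α := MeasurableSpace Ω) _ _ _

theorem jo_assoc (𝒜 ℬ 𝒟 : SA Ω) : jo 𝒜 (jo ℬ 𝒟) = jo (jo 𝒜 ℬ) 𝒟 :=
  (sup_assoc (α := MeasurableSpace Ω) _ _ _).symm

/-- `LT` for a group with increments in a smaller algebra -/
theorem lt_use (lt : ST_LT) [IsProbabilityMeasure μ] (hS : Sys μ S S') (he : Ergodic S μ)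
    (hA : IA μ 𝒜 S S') {Φ : Set (Ω → ℂ)} (hΦ : Grp μ Φ) (hi : ∀ φ ∈ Φ, Inc μ 𝒜 S φ)
    (hψ : UF μ ψ) (hm : AM μ (jo 𝒜 (sg Φ)) ψ) (hψi : Inc μ 𝒜 S ψ) :
    ∃ φ ∈ Φ, AM μ 𝒜 (fun x => ψ x * conj (φ x)) :=
  lt Ω μ S S' 𝒜 Φ ψ hS he hA hΦ hi hψ hm hψi

variable [IsProbabilityMeasure μ]

/-- the exponents after a torsion extension: the ones without exponents -/
theorem nk_zero (lt : ST_LT) (iaj : ST_IAJ) (hS : Sys μ S S') (he : Ergodic S μ)
    (hE : IA μ E S S') (hA : IA μ 𝒜 S S') (hτ : UF μ τ) (hτi : Inc μ E S τ) {M : ℕ} (hM : 1 ≤ M)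
    (hτM : AM μ E (fun x => τ x ^ M)) (hu : UF μ u) (hui : Inc μ 𝒜 S u)
    (h0 : nk μ (jo E 𝒜) u = 0) : nk μ (jo (ad μ E τ) 𝒜) u = 0 := by
  have hJ : IA μ (jo E 𝒜) S S' := (iaj Ω μ S S' hS).1 E 𝒜 hE hA
  set n := nk μ (jo (ad μ E τ) 𝒜) u with hn
  have h1 : AM μ (jo (ad μ E τ) 𝒜) (fun x => u x ^ (n : ℤ)) := (nk_spec hu _).2 dvd_rfl
  have h2 : jo (ad μ E τ) 𝒜 = jo (jo E 𝒜) (sg (Pw μ E τ)) := jo_ad _ _ _
  rw [h2] at h1
  obtain ⟨φ, hφ, h3⟩ := lt_use lt hS he hJ (grp_pw hτ)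
    (fun φ hφ => (inc_pw hS.mp hE hτ hτi φ hφ).lq lq_jo_left) (uf_zpow hu (n : ℤ)) h1
    ((inc_zpow hS.mp hu hui (n : ℤ)).lq lq_jo_right)
  have h4 : AM μ (jo E 𝒜) (fun x => φ x ^ M) := am_jo_left (pow_pw hτ hτM hφ)
  have h5 : AM μ (jo E 𝒜) (fun x => u x ^ ((n : ℤ) * M)) := by
    refine am_congr (am_mul (am_pow h3 M) h4) ?_
    filter_upwards [hφ.1.conj_mul] with x hx
    rw [mul_pow, mul_assoc, ← mul_pow, hx, one_pow, mul_one, zpow_mn]
  rw [nk_spec hu, h0] at h5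
  have h6 : (n : ℤ) * M = 0 := by simpa using h5
  have h7 : (n : ℤ) = 0 := by
    rcases mul_eq_zero.1 h6 with h | h
    · exact h
    · exfalso
      have : M = 0 := by exact_mod_cast h
      omega
  exact_mod_cast h7

theorem nk_mono {𝒜 ℬ : SA Ω} (h : LQ μ 𝒜 ℬ) (hu : UF μ u) :
    (nk μ ℬ u : ℤ) ∣ (nk μ 𝒜 u : ℤ) :=
  (nk_spec hu _).1 (h _ ((nk_spec hu _).2 dvd_rfl))

theorem lq_jo_mono {𝒜 ℬ 𝒟 : SA Ω} (h : LQ μ 𝒜 ℬ) : LQ μ (jo 𝒜 𝒟) (jo ℬ 𝒟) :=
  lq_jo (lq_trans h lq_jo_left) lq_jo_right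

theorem nk_le (lt : ST_LT) (iaj : ST_IAJ) (hS : Sys μ S S') (he : Ergodic S μ)
    (hE : IA μ E S S') (hA : IA μ 𝒜 S S') (hτ : UF μ τ) (hτi : Inc μ E S τ) {M : ℕ} (hM : 1 ≤ M)
    (hτM : AM μ E (fun x => τ x ^ M)) (hu : UF μ u) (hui : Inc μ 𝒜 S u) :
    nk μ (jo (ad μ E τ) 𝒜) u ≤ nk μ (jo E 𝒜) u := by
  rcases Nat.eq_zero_or_pos (nk μ (jo E 𝒜) u) with h | h
  · rw [nk_zero lt iaj hS he hE hA hτ hτi hM hτM hu hui h]
    exact Nat.zero_le _
  · refine Nat.le_of_dvd h ?_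
    have := nk_mono (μ := μ) (u := u) (lq_jo_mono (𝒟 := 𝒜) (lq_jo_left : LQ μ E (ad μ E τ))) hu
    exact_mod_cast this

theorem st_SCH (lt : ST_LT) (iaj : ST_IAJ) : ST_SCH := by
  intro Ω m0 μ hprob S S' u A N hst htr s hs
  have hS : Sys μ S S' := hst.sys 1
  have he : Ergodic S μ := hst.erg 1 le_rfl
  -- the algebras of the tower
  have hA : ∀ k, IA μ (A k) S S' := by
    intro k
    induction k with
    | zero => rw [htr.zero]; exact ia_bo hS
    | succ k ih => rw [htr.succ]; exact ia_ad iaj hS ih (htr.uf k) (htr.inc k)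
  -- the step
  have step : ∀ (E : SA Ω), IA μ E S S' → ¬ Sa μ S E → ∃ (ψ : Ω → ℂ) (M : ℕ), UF μ ψ ∧
      Inc μ E S ψ ∧ 1 ≤ M ∧ AM μ E (fun x => ψ x ^ M) ∧
      ∑ k ∈ range N, nk μ (jo (ad μ E ψ) (A k)) (u k) < ∑ k ∈ range N, nk μ (jo E (A k)) (u k) := by
    classical
    intro E hE hns
    unfold Sa at hns
    push Not at hns
    obtain ⟨ψ, hψ, hψi, M, hM, hψM, hψE⟩ := hns
    refine ⟨ψ, M, hψ, hψi, hM, hψM, ?_⟩
    have hex : ∃ k, AM μ (jo E (A k)) ψ := ⟨N, am_jo_right (htr.top ψ hψ.1)⟩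
    have hk1 := Nat.find_spec hex
    have hkN : Nat.find hex ≤ N := Nat.find_min' hex (am_jo_right (htr.top ψ hψ.1))
    have hk0 : Nat.find hex ≠ 0 := by
      intro h0
      rw [h0, htr.zero] at hk1
      have : jo E bo = E := sup_bot_eq (α := MeasurableSpace Ω) E
      rw [this] at hk1
      exact hψE hk1
    obtain ⟨j, hj⟩ := Nat.exists_eq_succ_of_ne_zero hk0
    have hjn : ¬ AM μ (jo E (A j)) ψ := Nat.find_min hex (by omega)
    rw [hj, Nat.succ_eq_add_one, htr.succ] at hk1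
    have hjN : j < N := by omega
    have hJ : IA μ (jo E (A j)) S S' := (iaj Ω μ S S' hS).1 E (A j) hE (hA j)
    have e1 : jo E (ad μ (A j) (u j)) = jo (jo E (A j)) (sg (Pw μ (A j) (u j))) := jo_assoc _ _ _
    rw [e1] at hk1
    obtain ⟨φ, hφ, h3⟩ := lt_use lt hS he hJ (grp_pw (htr.uf j))
      (fun φ hφ => (inc_pw hS.mp (hA j) (htr.uf j) (htr.inc j) φ hφ).lq lq_jo_right) hψ hk1
      (hψi.lq lq_jo_left)
    obtain ⟨hφu, a, h4⟩ := hφ
    have h5 : AM μ (jo E (A j)) (fun x => ψ x * conj (u j x ^ a)) := by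
      refine am_congr (am_mul h3 (am_jo_right h4)) ?_
      filter_upwards [hφu.conj_mul] with x hx
      linear_combination (ψ x * conj (u j x ^ a)) * hx
    have ha1 : ¬ (nk μ (jo E (A j)) (u j) : ℤ) ∣ a := by
      intro hd
      have h6 := (nk_spec (htr.uf j) a).2 hd
      refine hjn (am_congr (am_mul h5 h6) ?_)
      filter_upwards [(uf_zpow (htr.uf j) a).conj_mul] with x hx
      rw [mul_assoc, hx, mul_one]
    have ha2 : (nk μ (jo E (A j)) (u j) : ℤ) ∣ a * M := by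
      refine (nk_spec (htr.uf j) _).1 ?_
      refine am_congr (am_mul (am_conj (am_pow h5 M)) (am_jo_left hψM)) ?_
      filter_upwards [(hψ.pow M).conj_mul] with x hx
      rw [mul_pow, map_mul, map_pow (starRingEnd ℂ) (conj (u j x ^ a)), Complex.conj_conj, zpow_mn]
      linear_combination (u j x ^ (a * M)) * hx
    have ha3 : (nk μ (jo (ad μ E ψ) (A j)) (u j) : ℤ) ∣ a := by
      refine (nk_spec (htr.uf j) _).1 ?_
      have h6 : AM μ (jo (ad μ E ψ) (A j)) (fun x => ψ x * conj (u j x ^ a)) :=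
        lq_jo_mono lq_jo_left _ h5
      have h7 : AM μ (jo (ad μ E ψ) (A j)) ψ := am_jo_left (am_jo_right (am_sg (mem_pw hψ)))
      refine am_congr (am_mul (am_conj h6) h7) ?_
      filter_upwards [hψ.conj_mul] with x hx
      rw [map_mul, Complex.conj_conj]
      linear_combination (u j x ^ a) * hx
    have hle : ∀ k, nk μ (jo (ad μ E ψ) (A k)) (u k) ≤ nk μ (jo E (A k)) (u k) := fun k =>
      nk_le lt iaj hS he hE (hA k) hψ hψi hM hψM (htr.uf k) (htr.inc k)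
    refine Finset.sum_lt_sum (fun k _ => hle k) ⟨j, Finset.mem_range.2 hjN, ?_⟩
    refine lt_of_le_of_ne (hle j) fun heq => ?_
    rw [heq] at ha3
    exact ha1 ha3
  -- the induction
  have key : ∀ (m : ℕ) (E : SA Ω), Ct μ S s E → IA μ E S S' →
      ∑ k ∈ range N, nk μ (jo E (A k)) (u k) < m → ∃ E' : SA Ω, Ct μ S s E' ∧ Sa μ S E' := by
    intro m
    induction m with
    | zero => intro E _ _ h; omega
    | succ m ih =>
      intro E hct hE hlt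
      by_cases hsat : Sa μ S E
      · exact ⟨E, hct, hsat⟩
      · obtain ⟨ψ, M, hψ, hψi, hM, hψM, hsum⟩ := step E hE hsat
        exact ih (ad μ E ψ) (Ct.step E ψ M hct hψ hψi hM hψM) (ia_ad iaj hS hE hψ hψi) (by omega)
  exact key _ s Ct.refl hs (Nat.lt_succ_self _)

end Pool.Agent.Helper13.TA
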