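import Pool.Agent.Helper13.TA.SCH

/-!
Row TDV of the sheet TA (MP_7a8f48_an): eigenfunctions are divisible by finitely many primes.
-/

set_option linter.unusedSectionVars false

open MeasureTheory Filter Topology Finset
open scoped ComplexConjugate

namespace Pool.Agent.Helper13.TA

open Pool.Agent.Helper98.TW
open Pool.Agent.Helper98.TA (Ga Pw ad fr mt Sa Tr Ct Sg Ab Dv ST_TER ST_TDV)
open Pool.Agent.Helper40.TWM (St)

variable {Ω : Type} [m0 : MeasurableSpace Ω] {μ : Measure Ω} [IsProbabilityMeasure μ]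
variable {S S' : Ω → Ω} {u : ℕ → Ω → ℂ} {A : ℕ → SA Ω} {N : ℕ} {ψ φ : Ω → ℂ}

theorem ia_A (iaj : ST_IAJ) (hS : Sys μ S S') (htr : Tr μ S u A N) (k : ℕ) :
    IA μ (A k) S S' := by
  induction k with
  | zero => rw [htr.zero]; exact ia_bo hS
  | succ k ih => rw [htr.succ]; exact ia_ad iaj hS ih (htr.uf k) (htr.inc k)

theorem lq_A (htr : Tr μ S u A N) {j k : ℕ} (h : j ≤ k) : LQ μ (A j) (A k) := by
  induction h with
  | refl => exact lq_refl
  | step _ ih =>
    refine lq_trans ih ?_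
    rw [Nat.succ_eq_add_one, htr.succ]
    exact lq_jo_left

/-- functions of the next algebra with increments in `A k` -/
theorem lt_A (lt : ST_LT) (iaj : ST_IAJ) (hst : St μ S S') (htr : Tr μ S u A N) {k : ℕ}
    (hψ : UF μ ψ) (hm : AM μ (A (k + 1)) ψ) (hi : Inc μ (A k) S ψ) :
    ∃ a : ℤ, AM μ (A k) (fun x => ψ x * conj (u k x ^ a)) := by
  have hS : Sys μ S S' := hst.sys 1
  have he : Ergodic S μ := hst.erg 1 le_rfl
  have hA := ia_A iaj hS htr k
  rw [htr.succ] at hm
  obtain ⟨φ, hφ, h3⟩ := lt_use lt hS he hA (grp_pw (htr.uf k))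
    (inc_pw hS.mp hA (htr.uf k) (htr.inc k)) hψ hm hi
  obtain ⟨hφu, a, h4⟩ := hφ
  refine ⟨a, am_congr (am_mul h3 h4) ?_⟩
  filter_upwards [hφu.conj_mul] with x hx
  linear_combination (ψ x * conj (u k x ^ a)) * hx

/-- if a power of `ψ` is measurable then the same power of the power of `u` is -/
theorem dvd_A (htr : Tr μ S u A N) {k M : ℕ} {a : ℤ} (hψ : UF μ ψ)
    (h5 : AM μ (A k) (fun x => ψ x * conj (u k x ^ a))) (hM : AM μ (A k) (fun x => ψ x ^ M)) :
    (nk μ (A k) (u k) : ℤ) ∣ a * M := by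
  refine (nk_spec (htr.uf k) _).1 ?_
  refine am_congr (am_mul (am_conj (am_pow h5 M)) hM) ?_
  filter_upwards [(hψ.pow M).conj_mul] with x hx
  rw [mul_pow, map_mul, map_pow (starRingEnd ℂ) (conj (u k x ^ a)), Complex.conj_conj, zpow_mn]
  linear_combination (u k x ^ (a * M)) * hx

theorem am_A (htr : Tr μ S u A N) {k : ℕ} {a : ℤ}
    (h5 : AM μ (A k) (fun x => ψ x * conj (u k x ^ a))) (hd : (nk μ (A k) (u k) : ℤ) ∣ a) :
    AM μ (A k) ψ := by
  have h6 := (nk_spec (htr.uf k) a).2 hd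
  refine am_congr (am_mul h5 h6) ?_
  filter_upwards [(uf_zpow (htr.uf k) a).conj_mul] with x hx
  rw [mul_assoc, hx, mul_one]

/-- roots of large prime order -/
theorem root_A (lt : ST_LT) (iaj : ST_IAJ) (hst : St μ S S') (htr : Tr μ S u A N) {q : ℕ}
    (hq : q.Prime) (hqn : ∀ k < N, nk μ (A k) (u k) < q) (hφ : UF μ φ) (hi : Inc μ bo S φ)
    {j : ℕ} (hj : j ≤ N) (hφq : AM μ (A j) (fun x => φ x ^ q)) : AM μ (A j) φ := by
  have key : ∀ k : ℕ, j + k ≤ N → AM μ (A (j + k)) φ → AM μ (A j) φ := by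
    intro k
    induction k with
    | zero => exact fun _ h => h
    | succ k ih =>
      intro hk h
      refine ih (by omega) ?_
      obtain ⟨a, h5⟩ := lt_A lt iaj hst htr (k := j + k) hφ h (hi.lq lq_bo)
      have h6 := dvd_A htr hφ h5 (lq_A htr (Nat.le_add_right j k) _ hφq)
      refine am_A htr h5 ?_
      rcases Nat.eq_zero_or_pos (nk μ (A (j + k)) (u (j + k))) with h0 | h0
      · rw [h0] at h6 ⊢
        have h7 : a * (q : ℤ) = 0 := by simpa using h6
        have h8 : (q : ℤ) ≠ 0 := by exact_mod_cast hq.ne_zero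
        have h9 : a = 0 := (mul_eq_zero.1 h7).resolve_right h8
        rw [h9]; exact dvd_zero _
      · have hcop : Nat.Coprime (nk μ (A (j + k)) (u (j + k))) q :=
          (Nat.coprime_of_lt_prime (by omega) (hqn (j + k) (by omega)) hq).symm
        have hcop' : IsCoprime (nk μ (A (j + k)) (u (j + k)) : ℤ) (q : ℤ) :=
          Nat.isCoprime_iff_coprime.2 hcop
        exact hcop'.dvd_of_dvd_mul_right h6
  have hN : AM μ (A (j + (N - j))) φ := by
    rw [Nat.add_sub_cancel' hj]
    exact htr.top φ hφ.1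
  exact key (N - j) (by omega) hN

theorem st_TDV (lt : ST_LT) (iaj : ST_IAJ) (ter : ST_TER) : ST_TDV := by
  intro Ω m0 μ hprob S S' u A N hst htr ψ hψ hψi hψ0
  have hS : Sys μ S S' := hst.sys 1
  have hsat := (ter Ω μ S S' hst).1
  -- a bound for the exponents
  obtain ⟨Q₁, hQ₁⟩ : ∃ Q₁ : ℕ, ∀ k < N, nk μ (A k) (u k) < Q₁ := by
    refine ⟨∑ k ∈ range N, nk μ (A k) (u k) + 1, fun k hk => ?_⟩
    have := Finset.single_le_sum (f := fun k => nk μ (A k) (u k)) (fun _ _ => Nat.zero_le _)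
      (Finset.mem_range.2 hk)
    exact Nat.lt_succ_of_le this
  have key : ∀ (k : ℕ), k ≤ N → ∀ ψ : Ω → ℂ, UF μ ψ → Inc μ bo S ψ → ¬ AM μ bo ψ →
      AM μ (A k) ψ → ∃ q₀ : ℕ, ∀ q ≥ q₀, q.Prime → ¬ Dv μ S q ψ := by
    intro k
    induction k with
    | zero =>
      intro _ ψ _ _ h h'
      rw [htr.zero] at h'
      exact absurd h' h
    | succ k ih =>
      intro hk ψ hψ hψi hψ0 hm
      obtain ⟨a, h5⟩ := lt_A lt iaj hst htr hψ hm (hψi.lq lq_bo)
      by_cases hd : (nk μ (A k) (u k) : ℤ) ∣ a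
      · exact ih (by omega) ψ hψ hψi hψ0 (am_A htr h5 hd)
      rcases Nat.eq_zero_or_pos (nk μ (A k) (u k)) with h0 | h0
      · rw [h0] at hd
        have ha : a ≠ 0 := by
          rintro rfl
          exact hd (dvd_zero _)
        refine ⟨max Q₁ (a.natAbs + 1), fun q hq hqp hdv => ?_⟩
        have hq1 : Q₁ ≤ q := (le_max_left _ _).trans hq
        have hq2 : a.natAbs + 1 ≤ q := (le_max_right _ _).trans hq
        obtain ⟨φ, hφ, hφi, h7⟩ := hdv
        have h8 : AM μ (A (k + 1)) (fun x => φ x ^ q) := by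
          refine am_congr (am_mul (am_conj (lq_bo _ h7)) hm) ?_
          filter_upwards [hψ.conj_mul] with x hx
          rw [map_mul, Complex.conj_conj]
          linear_combination (φ x ^ q) * hx
        have h9 := root_A lt iaj hst htr hqp (fun k hk => (hQ₁ k hk).trans_le hq1) hφ hφi hk h8
        obtain ⟨b, h10⟩ := lt_A lt iaj hst htr hφ h9 (hφi.lq lq_bo)
        -- `u ^ (a - b q)` is measurable
        have h11 : AM μ (A k) (fun x => u k x ^ (a - b * q)) := by
          refine am_congr (am_mul (am_mul (am_conj h5) (lq_bo _ h7)) (am_pow h10 q)) ?_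
          filter_upwards [hψ.conj_mul, (hφ.pow q).conj_mul, conj_zpow (htr.uf k) b,
            ne_zero_of_uf (htr.uf k)] with x e1 e2 e3 e4
          rw [map_mul, Complex.conj_conj, mul_pow, e3, zpow_mn, sub_eq_add_neg,
            zpow_add₀ e4, neg_mul]
          linear_combination (u k x ^ a * u k x ^ (-(b * (q : ℤ)))) *
            (conj (φ x ^ q) * φ x ^ q * e1 + e2)
        rw [nk_spec (htr.uf k), h0] at h11
        have h12 : a = b * q := by
          have : a - b * q = 0 := by simpa using h11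
          linarith
        have h13 : a.natAbs = b.natAbs * q := by
          rw [h12, Int.natAbs_mul, Int.natAbs_natCast]
        have hb : b.natAbs ≠ 0 := by
          intro h14
          rw [h14, zero_mul] at h13
          exact ha (Int.natAbs_eq_zero.1 h13)
        have h15 : q ≤ a.natAbs := by
          rw [h13]
          exact Nat.le_mul_of_pos_left q (Nat.pos_of_ne_zero hb)
        omega
      · have h6 : AM μ (A k) (fun x => ψ x ^ nk μ (A k) (u k)) := by
          have h7 : AM μ (A k) (fun x => u k x ^ (a * (nk μ (A k) (u k) : ℤ))) :=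
            (nk_spec (htr.uf k) _).2 (dvd_mul_left _ _)
          refine am_congr (am_mul (am_pow h5 (nk μ (A k) (u k))) h7) ?_
          filter_upwards [(uf_zpow (htr.uf k) a).conj_mul] with x hx
          rw [← zpow_mn, mul_pow, mul_assoc, ← mul_pow, hx, one_pow, mul_one]
        obtain ⟨q₀, hq₀⟩ := ih (by omega) (fun x => ψ x ^ nk μ (A k) (u k)) (hψ.pow _) (hψi.pow _)
          (fun h => hψ0 (hsat ψ hψ hψi _ h0 h)) h6
        refine ⟨q₀, fun q hq hqp hdv => hq₀ q hq hqp ?_⟩
        obtain ⟨φ, hφ, hφi, h7⟩ := hdv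
        refine ⟨fun x => φ x ^ nk μ (A k) (u k), hφ.pow _, hφi.pow _, ?_⟩
        refine am_congr (am_pow h7 (nk μ (A k) (u k))) (Eventually.of_forall fun x => ?_)
        simp only [map_pow, mul_pow]
        ring
  exact key N le_rfl ψ hψ hψi hψ0 (htr.top ψ hψ.1)

end Pool.Agent.Helper13.TA
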