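import Pool.Agent.Helper98.TA.Basic
import Pool.Agent.Helper73.TWR.Tool

/-!
Row VTO of the sheet TA (MP_7a8f48_an): torsion steps.
-/

set_option linter.unusedSectionVars false

open MeasureTheory Filter Topology Finset
open scoped ComplexConjugate

namespace Pool.Agent.Helper13.TA

open Pool.Agent.Helper98.TW Pool.Agent.Helper73.TWR
open Pool.Agent.Helper98.TA
open Pool.Agent.Helper40.TWM (St)
open Pool.Agent.Helper98.GY (JY JJY)

section

variable {Ω : Type} [m0 : MeasurableSpace Ω] {μ : Measure Ω} [IsProbabilityMeasure μ]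
variable {S S' : Ω → Ω} {E : SA Ω} {τ G : Ω → ℂ}

theorem zpow_split {z : ℂ} (hz : ‖z‖ = 1) (M : ℕ) (n : ℤ) :
    conj (z ^ n) = conj ((z ^ M) ^ (n / M)) * conj (z ^ ((n % M).toNat)) ∨ M = 0 := by
  rcases Nat.eq_zero_or_pos M with h | h
  · right; exact h
  left
  have h0 : z ≠ 0 := by
    intro h
    rw [h, norm_zero] at hz
    exact zero_ne_one hz
  have hM : (M : ℤ) ≠ 0 := by exact_mod_cast h.ne'
  have h1 : 0 ≤ n % M := Int.emod_nonneg _ hM
  have h2 : z ^ n = (z ^ M) ^ (n / M) * z ^ ((n % M).toNat) := by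
    rw [← zpow_natCast z M, ← zpow_mul, ← zpow_natCast z (n % M).toNat, Int.toNat_of_nonneg h1,
      ← zpow_add₀ h0, Int.mul_ediv_add_emod]
  rw [h2, map_mul]

/-- the differences of the powers of `τ` below the order are orthogonal to `E` -/
theorem ce_pow_zero (lz : ST_LZ) (hS : Sys μ S S') (he : Ergodic S μ) (hE : IA μ E S S')
    (hτ : UF μ τ) (hi : Inc μ E S τ) {M : ℕ}
    (hmin : ∀ i, 1 ≤ i → i < M → ¬ AM μ E (fun x => τ x ^ i)) {i r : ℕ} (hi' : i < M)
    (hr : r < M) (hir : i ≠ r) : μ[fun x => τ x ^ i * conj (τ x ^ r)|E] =ᵐ[μ] 0 := by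
  have hu : UF μ (fun x => τ x ^ i * conj (τ x ^ r)) := (hτ.pow i).mul (hτ.pow r).conj
  have hin : Inc μ E S (fun x => τ x ^ i * conj (τ x ^ r)) := (hi.pow i).mul (hi.pow r).conj
  rcases lz Ω μ S S' E _ hS he hE hu hin with h | h
  · exact h
  exfalso
  rcases lt_or_gt_of_ne hir with h1 | h1
  · refine hmin (r - i) (by omega) (by omega) (am_congr (am_conj h) ?_)
    filter_upwards [(hτ.pow i).conj_mul] with x hx
    have : τ x ^ r = τ x ^ (r - i) * τ x ^ i := by rw [← pow_add]; congr 1; omega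
    rw [map_mul, Complex.conj_conj, this]
    linear_combination (τ x ^ (r - i)) * hx
  · refine hmin (i - r) (by omega) (by omega) (am_congr h ?_)
    filter_upwards [(hτ.pow r).conj_mul] with x hx
    have : τ x ^ i = τ x ^ (i - r) * τ x ^ r := by rw [← pow_add]; congr 1; omega
    rw [this]
    linear_combination (τ x ^ (i - r)) * hx

/-- the components of a function in a torsion extension -/
theorem decomp (lz : ST_LZ) (dns : ST_DNS) (hS : Sys μ S S') (he : Ergodic S μ)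
    (hE : IA μ E S S') (hτ : UF μ τ) (hi : Inc μ E S τ) {M : ℕ} (hM1 : 1 ≤ M)
    (hM : AM μ E (fun x => τ x ^ M))
    (hmin : ∀ i, 1 ≤ i → i < M → ¬ AM μ E (fun x => τ x ^ i))
    (hG : BF G) (hGE : AM μ (ad μ E τ) G) {F : Fin M → Ω → ℂ} (hF : ∀ i, BF (F i))
    (hFe : ∀ i : Fin M, F i =ᵐ[μ] fun x =>
      τ x ^ (i : ℕ) * (μ[fun x => conj (τ x ^ (i : ℕ)) * G x|E]) x)
    (hFE : ∀ i : Fin M, AM μ E (fun x => conj (τ x ^ (i : ℕ)) * F i x)) :
    G =ᵐ[μ] fun x => ∑ i, F i x := by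
  have hτA : AM μ (ad μ E τ) τ := am_ad_u hτ
  have hFA : ∀ i : Fin M, AM μ (ad μ E τ) (F i) := by
    intro i
    refine am_congr (am_mul (am_pow hτA (i : ℕ)) (lq_ad _ (hFE i))) ?_
    filter_upwards [(hτ.pow (i : ℕ)).mul_conj] with x hx
    rw [← mul_assoc, hx, one_mul]
  have hsumA : AM μ (ad μ E τ) (fun x => ∑ i, F i x) := am_finset_sum _ fun i _ => hFA i
  have hsumI : Integrable (fun x => ∑ i, F i x) μ :=
    integrable_finsetSum _ fun i _ => bf_int (hF i)
  have hHI : Integrable (fun x => G x - ∑ i, F i x) μ := (bf_int hG).sub hsumI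
  -- the components below the order
  have hcomp : ∀ r < M, μ[fun x => (G x - ∑ i, F i x) * conj (τ x ^ r)|E] =ᵐ[μ] 0 := by
    intro r hr
    have hFi : ∀ i : Fin M, μ[fun x => F i x * conj (τ x ^ r)|E] =ᵐ[μ]
        if (i : ℕ) = r then μ[fun x => conj (τ x ^ r) * G x|E] else 0 := by
      intro i
      set P : Ω → ℂ := μ[fun x => conj (τ x ^ (i : ℕ)) * G x|E] with hP
      have hPab : AB μ P := ((hτ.pow (i : ℕ)).conj.ab.mul hG.ab).ce hE.1
      have hu : UF μ (fun x => τ x ^ (i : ℕ) * conj (τ x ^ r)) :=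
        (hτ.pow (i : ℕ)).mul (hτ.pow r).conj
      have e1 : (fun x => F i x * conj (τ x ^ r)) =ᵐ[μ]
          fun x => P x * (τ x ^ (i : ℕ) * conj (τ x ^ r)) := by
        filter_upwards [hFe i] with x hx
        rw [hx]; ring
      have e2 : μ[fun x => F i x * conj (τ x ^ r)|E] =ᵐ[μ]
          fun x => P x * (μ[fun x => τ x ^ (i : ℕ) * conj (τ x ^ r)|E]) x :=
        (condExp_congr_ae e1).trans (pullb ce_am hPab (uf_int hu))
      refine e2.trans ?_
      by_cases hir : (i : ℕ) = r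
      · rw [if_pos hir]
        have e3 : μ[fun x => τ x ^ (i : ℕ) * conj (τ x ^ r)|E] =ᵐ[μ] μ[fun _ => (1 : ℂ)|E] := by
          refine condExp_congr_ae ?_
          filter_upwards [(hτ.pow r).mul_conj] with x hx
          rw [hir, hx]
        have e4 : μ[fun _ => (1 : ℂ)|E] =ᵐ[μ] fun _ => (1 : ℂ) :=
          ce_of_am hE.1 (integrable_const 1) (Pool.Agent.Helper98.TW.am_const 1)
        filter_upwards [e3, e4] with x h1 h2
        rw [h1, h2, mul_one, hP, hir]
      · rw [if_neg hir]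
        filter_upwards [ce_pow_zero lz hS he hE hτ hi hmin i.2 hr hir] with x hx
        rw [hx]; simp
    have hI : ∀ i : Fin M, Integrable (fun x => F i x * conj (τ x ^ r)) μ := fun i =>
      ((hF i).ab.mul (hτ.pow r).conj.ab).int
    have e1 : μ[fun x => (G x - ∑ i, F i x) * conj (τ x ^ r)|E] =ᵐ[μ]
        fun x => (μ[fun x => conj (τ x ^ r) * G x|E]) x -
          (μ[fun x => ∑ i, F i x * conj (τ x ^ r)|E]) x := by
      have e2 : (fun x => (G x - ∑ i, F i x) * conj (τ x ^ r)) =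
          fun x => conj (τ x ^ r) * G x - ∑ i, F i x * conj (τ x ^ r) := by
        funext x
        rw [sub_mul, Finset.sum_mul, mul_comm (G x)]
      rw [e2]
      exact ce_sub ((hτ.pow r).conj.ab.mul hG.ab).int (integrable_finsetSum _ fun i _ => hI i)
    have e3 : μ[fun x => ∑ i, F i x * conj (τ x ^ r)|E] =ᵐ[μ]
        fun x => ∑ i, (μ[fun x => F i x * conj (τ x ^ r)|E]) x := by
      have h1 := condExp_finsetSum (μ := μ) (s := (Finset.univ : Finset (Fin M)))
        (f := fun i x => F i x * conj (τ x ^ r)) (fun i _ => hI i) E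
      have h2 : (∑ i, fun x => F i x * conj (τ x ^ r)) =
          fun x => ∑ i, F i x * conj (τ x ^ r) := by
        funext x; simp
      rw [h2] at h1
      refine h1.trans (Eventually.of_forall fun x => ?_)
      simp
    have hall : ∀ᵐ x ∂μ, ∀ i : Fin M, (μ[fun x => F i x * conj (τ x ^ r)|E]) x =
        (if (i : ℕ) = r then μ[fun x => conj (τ x ^ r) * G x|E] else 0) x :=
      ae_all_iff.2 hFi
    filter_upwards [e1, e3, hall] with x h1 h2 h3
    rw [h1, h2, Finset.sum_congr rfl fun i _ => h3 i]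
    rw [Finset.sum_eq_single (⟨r, hr⟩ : Fin M)]
    · simp
    · intro b _ hb
      have : (b : ℕ) ≠ r := fun h => hb (Fin.ext h)
      rw [if_neg this]; rfl
    · intro h; exact absurd (Finset.mem_univ _) h
  have hzero : (fun x => G x - ∑ i, F i x) =ᵐ[μ] 0 := by
    refine dns Ω μ E (Pw μ E τ) _ hE.1 (grp_Pw hτ) hHI (am_sub hGE hsumA) ?_
    rintro φ ⟨hφ, n, hn⟩
    set r : ℕ := (n % M).toNat with hr
    have hMz : (M : ℤ) ≠ 0 := by exact_mod_cast (by omega : M ≠ 0)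
    have hrM : r < M := by
      have h1 : n % M < M := Int.emod_lt_of_pos _ (by exact_mod_cast hM1)
      have h2 : 0 ≤ n % M := Int.emod_nonneg _ hMz
      omega
    have hb : AM μ E (fun x => conj (φ x * conj (τ x ^ n)) * conj ((τ x ^ M) ^ (n / M))) :=
      am_mul (am_conj hn) (am_conj (am_zpow hM _))
    have hbu : UF μ (fun x => conj (φ x * conj (τ x ^ n)) * conj ((τ x ^ M) ^ (n / M))) :=
      ((hφ.mul (uf_zpow hτ n).conj).conj).mul (uf_zpow (hτ.pow M) _).conj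
    have e1 : (fun x => (G x - ∑ i, F i x) * conj (φ x)) =ᵐ[μ] fun x =>
        (conj (φ x * conj (τ x ^ n)) * conj ((τ x ^ M) ^ (n / M))) *
          ((G x - ∑ i, F i x) * conj (τ x ^ r)) := by
      filter_upwards [hτ.2, (uf_zpow hτ n).mul_conj] with x h1 h2
      have h3 := (zpow_split h1 M n).resolve_right (by omega)
      have h4 : conj (φ x) = conj (φ x * conj (τ x ^ n)) * conj (τ x ^ n) := by
        rw [map_mul, Complex.conj_conj]
        linear_combination (-(conj (φ x))) * h2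
      rw [h4, h3]
      simp only [hr]
      ring
    have e2 := pullb (μ := μ) (𝒜 := E) hb hbu.ab
      (F := fun x => (G x - ∑ i, F i x) * conj (τ x ^ r)) (by
        have := (hτ.pow r).conj.ab.int_mul hHI
        refine this.congr (Eventually.of_forall fun x => ?_)
        exact mul_comm _ _)
    filter_upwards [condExp_congr_ae (m := E) e1, e2, hcomp r hrM] with x h1 h2 h3
    rw [h1, h2, h3]; simp
  filter_upwards [hzero] with x hx
  have : G x - ∑ i, F i x = 0 := hx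
  linear_combination this

end

/-! ### the joining -/

section two

variable {Ω : Type} [m0 : MeasurableSpace Ω] {μ : Measure Ω} {S : Ω → Ω}
  {κ : Measure (Ω × Ω)} {p q : ℕ} {G : Ω → ℂ}

theorem jjy_sum (h : JY S μ p q κ) {M : ℕ} {F : Fin M → Ω → ℂ} (hF : ∀ i, BF (F i))
    (hG : G =ᵐ[μ] fun x => ∑ i, F i x) : JJY κ G ≤ M * ∑ i, JJY κ (F i) := by
  have hP : IsProbabilityMeasure κ := h.prob
  have hmp := jy_mp1 h
  have h1 : (fun z : Ω × Ω => G z.1) =ᵐ[κ] fun z => ∑ i, F i z.1 :=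
    hmp.quasiMeasurePreserving.ae hG
  have hI : ∀ i : Fin M, BF (fun z : Ω × Ω => F i z.1) := fun i =>
    ⟨(hF i).1.comp measurable_fst, (hF i).2.imp fun B hB z => hB z.1⟩
  have h2 : κ[fun z => ∑ i, F i z.1|B2 Ω] =ᵐ[κ] fun z => ∑ i, (κ[fun z => F i z.1|B2 Ω]) z := by
    have h1 := condExp_finsetSum (μ := κ) (s := (Finset.univ : Finset (Fin M)))
      (f := fun i z => F i z.1) (fun i _ => bf_int (hI i)) (B2 Ω)
    have h2 : (∑ i, fun z : Ω × Ω => F i z.1) = fun z => ∑ i, F i z.1 := by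
      funext x; simp
    rw [h2] at h1
    refine h1.trans (Eventually.of_forall fun x => ?_)
    simp
  have hJ : ∀ H : Ω → ℂ, JJY κ H = ∫ z, ‖(κ[fun z => H z.1|B2 Ω]) z‖ ^ 2 ∂κ := fun _ => rfl
  simp only [hJ]
  have hint : ∀ i : Fin M, Integrable (fun z => ‖(κ[fun z => F i z.1|B2 Ω]) z‖ ^ 2) κ := fun i =>
    (ce_memLp (bf_memLp (hI i))).integrable_norm_pow (by norm_num)
  rw [← integral_finsetSum _ fun i _ => hint i, ← integral_const_mul]
  refine integral_mono_ae ?_ ((integrable_finsetSum _ fun i _ => hint i).const_mul _) ?_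
  · refine (MemLp.integrable_norm_pow (p := 2) ?_ (by norm_num))
    refine ce_memLp ?_
    exact (memLp_congr_ae h1).2 (memLp_finsetSum _ fun i _ => bf_memLp (hI i))
  · filter_upwards [condExp_congr_ae (m := B2 Ω) h1, h2] with z e1 e2
    rw [e1, e2]
    have h3 : ‖∑ i, (κ[fun z => F i z.1|B2 Ω]) z‖ ^ 2 ≤
        (∑ i, ‖(κ[fun z => F i z.1|B2 Ω]) z‖) ^ 2 :=
      pow_le_pow_left₀ (norm_nonneg _) (norm_sum_le _ _) 2
    refine h3.trans ?_
    have h5 := sq_sum_le_card_mul_sum_sq (s := (Finset.univ : Finset (Fin M)))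
      (f := fun i => ‖(κ[fun z => F i z.1|B2 Ω]) z‖)
    simpa using h5

end two

theorem st_VTO (lz : ST_LZ) (dns : ST_DNS) (vco : ST_VCO) : ST_VTO := by
  classical
  intro Ω m0 μ _ S S' E τ M₁ hst hE hτ hi hM₁ hτM hVc
  have hS : Sys μ S S' := hst.sys 1
  have he : Ergodic S μ := hst.erg 1 le_rfl
  -- the order
  have hex : ∃ i, 1 ≤ i ∧ AM μ E (fun x => τ x ^ i) := ⟨M₁, hM₁, hτM⟩
  set M := Nat.find hex with hMdef
  obtain ⟨hM1, hM⟩ := Nat.find_spec hex
  have hmin : ∀ i, 1 ≤ i → i < M → ¬ AM μ E (fun x => τ x ^ i) := fun i h1 h2 h3 =>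
    Nat.find_min hex h2 ⟨h1, h3⟩
  have hE' : IA μ (ad μ E τ) S S' := ia_ad hS hE hτ hi
  have hM0 : (0 : ℝ) < M := by exact_mod_cast hM1
  intro ε hε
  obtain ⟨q₀, hq₀⟩ := hVc (ε / (M * M)) (by positivity)
  refine ⟨q₀, fun q hq hqp p hpp hpq κ hκ D hD G hG hGE hG0 => ?_⟩
  have hprobκ : IsProbabilityMeasure κ := hκ.prob
  have hex2 : ∀ i : Fin M, ∃ F : Ω → ℂ, BF F ∧
      (F =ᵐ[μ] fun x => τ x ^ (i : ℕ) * (μ[fun x => conj (τ x ^ (i : ℕ)) * G x|E]) x) ∧
      AM μ E (fun x => conj (τ x ^ (i : ℕ)) * F x) ∧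
      ∀ ψ, UF μ ψ → Inc μ (mt μ D E) S^[p] ψ →
        AM μ E (fun x => conj (τ x ^ (i : ℕ)) * ψ x) →
        AM μ D ψ → μ[fun x => conj (ψ x) * F x|mt μ D E] =ᵐ[μ] 0 := fun i =>
    vco Ω μ S S' p D E (ad μ E τ) (fun x => τ x ^ (i : ℕ)) G hst hD.ia hE hE' lq_ad (hτ.pow _)
      (hi.pow _) (am_pow (am_ad_u hτ) _) hG hGE hG0
  choose F hF hFe hFE hFo using hex2
  have hdec := decomp lz dns hS he hE hτ hi hM1 hM hmin hG hGE hF hFe hFE
  have h1 := jjy_sum hκ hF hdec
  have h2 : ∀ i, JJY κ (F i) ≤ ε / (M * M) * ∫ x, ‖G x‖ ^ 2 ∂μ := by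
    intro i
    refine (hq₀ q hq hqp p hpp hpq κ hκ D hD (fun x => τ x ^ (i : ℕ)) (F i) (hτ.pow _)
      (hi.pow _) (hF i) (hFE i) (hFo i)).trans ?_
    refine mul_le_mul_of_nonneg_left ?_ (by positivity)
    have e1 : ∫ x, ‖F i x‖ ^ 2 ∂μ =
        ∫ x, ‖(μ[fun x => conj (τ x ^ (i : ℕ)) * G x|E]) x‖ ^ 2 ∂μ := by
      refine integral_congr_ae ?_
      filter_upwards [hFe i, (hτ.pow (i : ℕ)).2] with x e1 e2
      rw [e1, norm_mul, e2, one_mul]
    have e2 : ∫ x, ‖conj (τ x ^ (i : ℕ)) * G x‖ ^ 2 ∂μ = ∫ x, ‖G x‖ ^ 2 ∂μ := by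
      refine integral_congr_ae ?_
      filter_upwards [(hτ.pow (i : ℕ)).2] with x e2
      rw [norm_mul, RCLike.norm_conj, e2, one_mul]
    rw [e1, ← e2]
    exact ce_sq_le ((hτ.pow (i : ℕ)).conj.ab.mul hG.ab).memLp
  calc JJY κ G ≤ M * ∑ i, JJY κ (F i) := h1
    _ ≤ M * ∑ _i : Fin M, ε / (M * M) * ∫ x, ‖G x‖ ^ 2 ∂μ :=
        mul_le_mul_of_nonneg_left (Finset.sum_le_sum fun i _ => h2 i) hM0.le
    _ = ε * ∫ x, ‖G x‖ ^ 2 ∂μ := by
        rw [Finset.sum_const, Finset.card_univ, Fintype.card_fin, nsmul_eq_mul]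
        field_simp

end Pool.Agent.Helper13.TA
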