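import Pool.Agent.Helper13.GY.W23
import Pool.Agent.Helper98.TA.Stmts

/-!
Rows WMG, WM1 of the sheet TA (MP_7a8f48_an).
-/

set_option linter.unusedSectionVars false

open MeasureTheory Filter Topology Finset
open scoped ComplexConjugate

namespace Pool.Agent.Helper13.TA

open Pool.Agent.Helper98.TW Pool.Agent.Helper73.TWR Pool.Agent.Helper92.TWR
open Pool.Agent.Helper13.GY (bg Van w1 w3 w3g)
open Pool.Agent.Helper98.TA (A0 ST_WMG ST_WM1)

variable {Ω : Type} [m0 : MeasurableSpace Ω] {μ : Measure Ω} [IsProbabilityMeasure μ]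
variable {R R' : Ω → Ω} {C : SA Ω} {F G : Ω → ℂ}

theorem al_eq (H : ℕ) : al μ C R (fun _ => 1) F H = (∑ h ∈ range H, be μ C R F h) / (H : ℝ) := by
  unfold al be
  congr 1
  refine Finset.sum_congr rfl fun h _ => ?_
  have : (fun x => (inner ℂ (F x) (Wi (fun _ => (1 : ℂ →L[ℂ] ℂ)) R h F x) : ℂ)) =
      fun x => F (R^[h] x) * conj (F x) := by
    funext x
    rw [Wi_one, RCLike.inner_apply]
  rw [this]

theorem a0_iff : A0 μ C R F ↔ Van μ C R F := by
  unfold A0 Van
  simp only [al_eq]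

theorem st_WMG : ST_WMG := by
  intro Ω _ μ _ R R' C f g hS hC hf hg h0
  refine (w1 hS hC hf hg (a0_iff.1 h0)).congr fun H => ?_
  congr 1
  refine Finset.sum_congr rfl fun h _ => ?_
  unfold bg
  have : (fun x => f (R^[h] x) * conj (g x)) = fun x => conj (g x) * f (R^[h] x) := by
    funext x
    exact mul_comm _ _
  rw [this]

theorem st_WM1 : ST_WM1 := by
  intro Ω _ μ _ R R' C f hS hC hf h0
  exact ⟨fun φ hφ hi => w3 hS hC hf hφ hi (a0_iff.1 h0),
    fun Φ hΦ hi => w3g hS hC hf hΦ hi (a0_iff.1 h0)⟩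

end Pool.Agent.Helper13.TA
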